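import Pool.Agent.Q44.BO.Mmt

/-!
# The ranks of all the quadratic twists of the elliptic curves with a cyclic isogeny of degree four over
# the field of their `2`-torsion

Let `E : y² = x³ + a x² + b x`, `a` and `b` integers such that `b` is not a square and `b (a² - 4 b)` is a
square different from `0`. These are the curves with exactly one rational point of order two which have a
cyclic isogeny of degree four over `ℚ(E[2])` but not over `ℚ`. Let `E_D : y² = x³ + a D x² + b D² x`, for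
*all* squarefree integers `D`. The results:

* there are `η > 0` and `C` such that for all `X` and all `y > 0` the number of the squarefree `D` with
  `|D| ≤ X` and `2 ^ rank · # Ш[2] ≥ y` is at most `C X / y ^ η`;
* the mean of `(2 ^ rank · # Ш[2]) ^ η` over the squarefree `D` with `|D| ≤ X` is bounded for some `η > 0`,
  hence the mean of `rank ^ k` is bounded for all `k`;
* in every local class (the sign and the square classes at the primes which divide `2 b (a² - 4 b)` are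
  prescribed) the mean of every function `f`, `|f r| ≤ q ^ r`, of the dimensions of the two isogeny Selmer
  groups tends to its mean for the law given by the constants `τ`, `τ'` of the class (`q > 1` depends on
  the curve), where `τ` and `τ'` are products of local factors;
* the upper limit of the mean of `rank + dim Ш[2]` in the local class is at most the sum of the means of
  these laws, which is at most `τ + τ'`;
* for `a = 4`, `b = 2`, the negative odd `D`, and for `a = b = 5`, the negative even `D`, the mean of the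
  rank in the local class is at most `1.75` for large `X`.
-/

set_option autoImplicit false

open Finset Filter

namespace Pool.Agent.Results.MP_788af2_nt.AllTwistsBounded

/-- the curve `y² = x³ + A x² + B x` over `ℚ` -/
def E (A B : ℤ) : WeierstrassCurve ℚ :=
  { a₁ := 0, a₂ := (A : ℚ), a₃ := 0, a₄ := (B : ℚ), a₆ := 0 }

/-- the rank of the group of rational points of `y² = x³ + A x² + B x` -/
noncomputable def rank (A B : ℤ) : ℕ := Module.finrank ℤ (E A B).toAffine.Point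

open Classical in
/-- the `2`-torsion of the Tate-Shafarevich group of `y² = x³ + A x² + B x` -/
def ShaTwo (A B : ℤ) : Type := {x : Pool.Agent.W262.SH.Sha (E A B) // x + x = 0}

/-- `z` is, up to squares, the abscissa of a point over `F` of `y² = x³ + A x² + B x` -/
def Loc (F : Type) [Field F] (A B z : ℤ) : Prop :=
  ∃ x y r : F, x ≠ 0 ∧ y ^ 2 = x ^ 3 + (A : F) * x ^ 2 + (B : F) * x ∧ x = (z : F) * r ^ 2

/-- the Selmer group of the isogeny of degree two onto `y² = x³ + A x² + B x`, a subgroup of `ℚ*/ℚ*²`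
which is described by squarefree integers -/
def Sel (A B : ℤ) : Set ℤ :=
  {z | Squarefree z ∧ (∀ (p : ℕ) [Fact p.Prime], Loc ℚ_[p] A B z) ∧ Loc ℝ A B z}

/-- the Selmer group of the isogeny onto `E_D : y² = x³ + a D x² + b D² x` -/
def SelDual (a b D : ℤ) : Set ℤ := Sel (a * D) (b * D ^ 2)

/-- the Selmer group of the isogeny from `E_D` onto
`E_D' : y² = x³ - 2 a D x² + (a² - 4 b) D² x` -/
def SelPhi (a b D : ℤ) : Set ℤ := Sel (-2 * a * D) ((a ^ 2 - 4 * b) * D ^ 2)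

/-- the number `2 ^ rank · # Ш[2]` of the curve `E_D` -/
noncomputable def size (a b D : ℤ) : ℕ :=
  2 ^ rank (a * D) (b * D ^ 2) * Nat.card (ShaTwo (a * D) (b * D ^ 2))

/-- the curves: `b` is not a square, `b (a² - 4 b)` is a square different from `0` -/
def Exceptional (a b : ℤ) : Prop :=
  ¬ IsSquare b ∧ a ^ 2 - 4 * b ≠ 0 ∧ IsSquare (b * (a ^ 2 - 4 * b))

/-- the group of the square classes of a field -/
abbrev SquareClasses (K : Type) [Field K] : Type := Kˣ ⧸ (powMonoidHom 2 : Kˣ →* Kˣ).range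

/-- the square classes of the abscissae of the points over `K` of `y² = x³ + A x² + B x` -/
def image (K : Type) [Field K] (A B : ℤ) : Set (SquareClasses K) :=
  {c | ∃ (x : Kˣ) (y : K), y ^ 2 = (x : K) ^ 3 + (A : K) * (x : K) ^ 2 + (B : K) * (x : K) ∧
    c = QuotientGroup.mk x}

open Classical in
/-- the number of these classes over `ℚ_p` -/
noncomputable def imageCard (A B : ℤ) (p : ℕ) : ℕ :=
  if h : p.Prime then (haveI : Fact p.Prime := ⟨h⟩; Nat.card (image ℚ_[p] A B)) else 1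

/-- the primes which divide `2 b (a² - 4 b)` -/
def bad (a b : ℤ) : Finset ℕ := (2 * (b * (a ^ 2 - 4 * b))).natAbs.primeFactors

/-- the product over the primes of `S` and the infinite place of `1/2` times the number of the classes -/
noncomputable def ratio (S : Finset ℕ) (A B : ℤ) : ℝ :=
  (((∏ p ∈ S, imageCard A B p) * Nat.card (image ℝ A B) : ℕ) : ℝ) / 2 ^ (S.card + 1)

/-- the constant of the curve `E_D` -/
noncomputable def τ (a b D : ℤ) : ℝ := ratio (bad a b) (a * D) (b * D ^ 2)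

/-- the constant of the curve `E_D'` -/
noncomputable def τ' (a b D : ℤ) : ℝ := ratio (bad a b) (-2 * a * D) ((a ^ 2 - 4 * b) * D ^ 2)

/-- `D` and `D₀` have the same sign and the same square classes at the bad primes -/
def Same (a b D₀ D : ℤ) : Prop := 0 < D₀ * D ∧
  ∀ (p : ℕ) [Fact p.Prime], (p : ℤ) ∣ 2 * (b * (a ^ 2 - 4 * b)) → IsSquare ((D₀ * D : ℤ) : ℚ_[p])

open Classical in
/-- the squarefree integers `D` with `|D| ≤ X` -/
noncomputable def Twists (X : ℕ) : Finset ℤ := (Icc (-(X : ℤ)) X).filter fun D => Squarefree D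

open Classical in
/-- those in the local class of `D₀` -/
noncomputable def Class (a b D₀ : ℤ) (X : ℕ) : Finset ℤ := (Twists X).filter fun D => Same a b D₀ D

/-- the number `r` if `n = 2 ^ (r + 1)` -/
def dim (n : ℕ) : ℕ := Nat.log 2 n - 1

/-- the law of the dimensions -/
noncomputable def law (t : ℝ) (r : ℕ) : ℝ :=
  t ^ r / (∏ i ∈ range r, ((2 : ℝ) ^ r - 2 ^ i)) * ∏' i : ℕ, (1 - t / 2 ^ (r + i + 1))

/-- the sum of the means of the two laws -/
noncomputable def mean (a b D₀ : ℤ) : ℝ :=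
  ∑' r : ℕ, (r : ℝ) * law (τ a b D₀) r + ∑' r : ℕ, (r : ℝ) * law (τ' a b D₀) r

open Classical in
/-- the number of the twists with `2 ^ rank · # Ш[2] ≥ y`, for all `X` and all `y` -/
def Tail (a b : ℤ) : Prop := ∃ η C : ℝ, 0 < η ∧ 0 < C ∧ ∀ (X : ℕ) (y : ℝ), 0 < y →
  (((Twists X).filter fun D => y ≤ (size a b D : ℝ)).card : ℝ) ≤ C * X / y ^ η

/-- a small moment of `2 ^ rank · # Ш[2]` and all the moments of the rank are bounded -/
def Moments (a b : ℤ) : Prop :=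
  (∃ η C : ℝ, 0 < η ∧ 0 < C ∧ ∀ X : ℕ, ∑ D ∈ Twists X, (size a b D : ℝ) ^ η ≤ C * X) ∧
  ∀ k : ℕ, ∃ C : ℝ, 0 < C ∧ ∀ X : ℕ, ∑ D ∈ Twists X, (rank (a * D) (b * D ^ 2) : ℝ) ^ k ≤ C * X

/-- the limits of the means of the functions of the dimensions of the two Selmer groups -/
def Averages (a b : ℤ) : Prop := ∃ q : ℝ, 1 < q ∧ ∀ D₀ : ℤ, Squarefree D₀ → ∀ f : ℕ → ℝ,
  (∀ r, |f r| ≤ q ^ r) →
  Tendsto (fun X : ℕ => (∑ D ∈ Class a b D₀ X, f (dim (SelDual a b D).ncard)) /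
    ((Class a b D₀ X).card : ℝ)) atTop (nhds (∑' r, f r * law (τ a b D₀) r)) ∧
  Tendsto (fun X : ℕ => (∑ D ∈ Class a b D₀ X, f (dim (SelPhi a b D).ncard)) /
    ((Class a b D₀ X).card : ℝ)) atTop (nhds (∑' r, f r * law (τ' a b D₀) r))

/-- the local class of `D₀` has positive lower density, and the mean of `rank + dim Ш[2]` in it -/
def Mean (a b D₀ : ℤ) : Prop :=
  (∃ η : ℝ, 0 < η ∧ ∀ᶠ X : ℕ in atTop, η * (X : ℝ) ≤ ((Class a b D₀ X).card : ℝ)) ∧
  (∀ ε : ℝ, 0 < ε → ∀ᶠ X : ℕ in atTop,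
    ∑ D ∈ Class a b D₀ X, Real.logb 2 (size a b D) ≤
      (mean a b D₀ + ε) * ((Class a b D₀ X).card : ℝ)) ∧
  mean a b D₀ ≤ τ a b D₀ + τ' a b D₀

/-- the orders of the Selmer groups are powers of two, and the bound for `2 ^ rank · # Ш[2]` -/
def Bounds (a b : ℤ) : Prop := ∀ D : ℤ, Squarefree D →
  (SelDual a b D).Finite ∧ (SelPhi a b D).Finite ∧ Finite (ShaTwo (a * D) (b * D ^ 2)) ∧
    ∃ r s : ℕ, (SelDual a b D).ncard = 2 ^ (r + 1) ∧ (SelPhi a b D).ncard = 2 ^ (s + 1) ∧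
      size a b D ≤ 2 ^ (r + s)

/-- the examples -/
def Examples : Prop :=
  (Exceptional 4 2 ∧ ∀ D₀ : ℤ, Squarefree D₀ → D₀ < 0 → D₀ % 2 = 1 → ∀ᶠ X : ℕ in atTop,
    ∑ D ∈ Class 4 2 D₀ X, (rank (4 * D) (2 * D ^ 2) : ℝ) ≤ 1.75 * ((Class 4 2 D₀ X).card : ℝ)) ∧
  (Exceptional 5 5 ∧ ∀ D₀ : ℤ, Squarefree D₀ → D₀ < 0 → D₀ % 4 = 2 → ∀ᶠ X : ℕ in atTop,
    ∑ D ∈ Class 5 5 D₀ X, (rank (5 * D) (5 * D ^ 2) : ℝ) ≤ 1.75 * ((Class 5 5 D₀ X).card : ℝ))

/-! ### The proof -/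

open scoped Classical

/-- the data -/
def cd {a b : ℤ} (h : Exceptional a b) : Q44.BN.Cd := ⟨a, b, h.1, h.2.1, h.2.2⟩

lemma e1 (a D : ℤ) : -2 * a * D = -2 * (a * D) := by ring

lemma e2 (a b D : ℤ) : (a ^ 2 - 4 * b) * D ^ 2 = (a * D) ^ 2 - 4 * (b * D ^ 2) := by ring

lemma nS'_eq {a b : ℤ} (h : Exceptional a b) (D : ℤ) : (cd h).nS' D = (SelPhi a b D).ncard := by
  unfold SelPhi
  rw [e1, e2]
  rfl

lemma nS_eq {a b : ℤ} (h : Exceptional a b) (D : ℤ) : (cd h).nS D = (SelDual a b D).ncard := rfl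

lemma rs_eq {a b : ℤ} (h : Exceptional a b) (D : ℤ) : (cd h).rs D = size a b D := rfl

lemma tau_eq {a b : ℤ} (h : Exceptional a b) (D : ℤ) : (cd h).tau D = τ a b D := rfl

lemma tau_eq' {a b : ℤ} (h : Exceptional a b) (D : ℤ) : (cd h).tau' D = τ' a b D := by
  unfold τ'
  rw [e1, e2]
  rfl

lemma law_eq {t : ℝ} (ht : 0 ≤ t) (r : ℕ) : Q44.BC.lam t r = law t r := Q44.BN.lam_tprod ht r

lemma twists_eq (X : ℕ) : Twists X = Q44.BN.Sq X := rfl

lemma class_eq {a b : ℤ} (h : Exceptional a b) (D₀ : ℤ) (X : ℕ) :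
    Class a b D₀ X = Q44.BO.Cls (cd h) D₀ X := rfl

lemma dim_eq (n : ℕ) : dim n = Q44.BO.lg n := rfl

lemma rk_eq {a b : ℤ} (h : Exceptional a b) (D : ℤ) :
    Q44.BO.rk (cd h) D = rank (a * D) (b * D ^ 2) := rfl

lemma tail {a b : ℤ} (h : Exceptional a b) : Tail a b := by
  obtain ⟨η, C, hη, hC, h1⟩ := Q44.BO.tail_real (cd h)
  refine ⟨η, C, hη, hC, fun X y hy => le_trans (le_of_eq ?_) (h1 X y hy)⟩
  exact congrArg Nat.cast (Q44.BO.cardS (fun D => Iff.rfl) _)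

lemma moments {a b : ℤ} (h : Exceptional a b) : Moments a b :=
  ⟨Q44.BO.mom_rs (cd h), Q44.BO.mom_rk (cd h)⟩

lemma taus {a b : ℤ} (h : Exceptional a b) {D₀ : ℤ} (hD : Squarefree D₀) :
    (0 < τ a b D₀ ∧ 0 < τ' a b D₀) ∧ Q44.BC.lam ((cd h).tau D₀) = law (τ a b D₀) ∧
      Q44.BC.lam ((cd h).tau' D₀) = law (τ' a b D₀) := by
  obtain ⟨⟨t1, t2⟩, -⟩ := (cd h).facts hD
  rw [tau_eq h] at t1 ⊢
  rw [tau_eq' h] at t2 ⊢
  exact ⟨⟨t1, t2⟩, funext fun r => law_eq t1.le r, funext fun r => law_eq t2.le r⟩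

lemma averages {a b : ℤ} (h : Exceptional a b) : Averages a b := by
  obtain ⟨q, hq, h1⟩ := Q44.BO.avg_all (cd h)
  refine ⟨q, hq, fun D₀ hD f hf => ?_⟩
  obtain ⟨k1, k2⟩ := h1 D₀ hD f hf
  obtain ⟨-, g1, g2⟩ := taus h hD
  rw [g1] at k1
  rw [g2] at k2
  refine ⟨k1, ?_⟩
  simp only [nS'_eq h] at k2
  exact k2

lemma mean_eq {a b : ℤ} (h : Exceptional a b) {D₀ : ℤ} (hD : Squarefree D₀) :
    ∑' r : ℕ, (r : ℝ) * Q44.BC.lam ((cd h).tau D₀) r +
      ∑' r : ℕ, (r : ℝ) * Q44.BC.lam ((cd h).tau' D₀) r = mean a b D₀ := by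
  obtain ⟨-, g1, g2⟩ := taus h hD
  rw [g1, g2]
  rfl

lemma mean_lim {a b : ℤ} (h : Exceptional a b) {D₀ : ℤ} (hD : Squarefree D₀) : Mean a b D₀ := by
  obtain ⟨η, X₀, hη, hX⟩ := (cd h).density hD
  refine ⟨⟨η, hη, ?_⟩, fun ε hε => ?_, ?_⟩
  · filter_upwards [eventually_ge_atTop X₀] with X hX0
    exact hX X hX0
  · have h1 := Q44.BO.mean_rs (cd h) hD hε
    rw [mean_eq h hD] at h1
    exact h1
  · obtain ⟨-, l1, l2, -⟩ := (cd h).facts hD
    have h1 := (Q44.BO.mean_dim (cd h) hD).2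
    have n1 := Q44.BO.lam_nonneg (cd h) l1 2
    have n2 := Q44.BO.lam_nonneg (cd h) l2 2
    rw [mean_eq h hD, tau_eq h, tau_eq' h] at h1
    rw [tau_eq h] at n1
    rw [tau_eq' h] at n2
    linarith

lemma bounds {a b : ℤ} (h : Exceptional a b) : Bounds a b := by
  intro D hD
  obtain ⟨f1, f2, ⟨r, hr⟩, s, hs⟩ := (cd h).pow_nS hD
  obtain ⟨k1, k2⟩ := (cd h).rs_le hD
  have e3 : SelPhi a b D = Q44.TI.SelS (-2 * (a * D)) ((a * D) ^ 2 - 4 * (b * D ^ 2)) := by
    unfold SelPhi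
    rw [e1, e2]
    rfl
  refine ⟨f1, ?_, k1, r, s, hr, ?_, ?_⟩
  · rw [e3]
    exact f2
  · rw [← nS'_eq h]
    exact hs
  · rw [hr, hs, rs_eq h] at k2
    have h3 : 2 ^ (r + 1) * 2 ^ (s + 1) = 4 * 2 ^ (r + s) := by
      rw [← pow_add]
      have : r + 1 + (s + 1) = r + s + 2 := by ring
      rw [this, pow_add]
      ring
    omega

/-- the balanced classes -/
lemma bal {a b : ℤ} (h : Exceptional a b) {D₀ : ℤ} (hD : Squarefree D₀) (t1 : τ a b D₀ = 1)
    (t2 : τ' a b D₀ = 1) : ∀ᶠ X : ℕ in atTop,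
      ∑ D ∈ Class a b D₀ X, (rank (a * D) (b * D ^ 2) : ℝ) ≤ 1.75 * ((Class a b D₀ X).card : ℝ) := by
  have h1 := (Q44.BO.mean_dim (cd h) hD).2
  rw [mean_eq h hD, tau_eq h, tau_eq' h, t1, t2] at h1
  have h2 := Q44.BO.lam_one_two
  have h3 : mean a b D₀ + 0.006 ≤ 1.75 := by
    norm_num at h1 h2 ⊢
    linarith
  filter_upwards [(mean_lim h hD).2.1 0.006 (by norm_num)] with X hX
  refine le_trans (sum_le_sum fun D hDX => ?_) (hX.trans
    (mul_le_mul_of_nonneg_right h3 (Nat.cast_nonneg _)))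
  have hsq : Squarefree D := by
    have k1 : D ∈ Q44.BO.Cls (cd h) D₀ X := hDX
    exact (Q44.BN.mem_Sq.1 (Q44.BO.mem_Cls.1 k1).1).2
  have k2 := Q44.BO.two_rk_le (cd h) hsq
  have k3 := (cd h).rs_pos hsq
  rw [rk_eq, rs_eq] at k2
  rw [rs_eq] at k3
  have k3' : (0 : ℝ) < (size a b D : ℝ) := by exact_mod_cast k3
  rw [Real.le_logb_iff_rpow_le (by norm_num) k3', Real.rpow_natCast]
  exact_mod_cast k2

lemma bad_42 : bad 4 2 = {2} := by
  unfold bad
  have : (2 * (2 * (4 ^ 2 - 4 * 2)) : ℤ).natAbs = 2 ^ 5 := by norm_num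
  rw [this, Nat.primeFactors_prime_pow (by norm_num) Nat.prime_two]

lemma bad_55 : bad 5 5 = {2, 5} := by
  unfold bad
  have : (2 * (5 * (5 ^ 2 - 4 * 5)) : ℤ).natAbs = 2 * 5 ^ 2 := by norm_num
  rw [this, Nat.primeFactors_mul (by norm_num) (by norm_num),
    Nat.primeFactors_prime_pow (by norm_num) (by norm_num : Nat.Prime 5),
    Nat.Prime.primeFactors Nat.prime_two]
  rfl

lemma exc_42 : Exceptional 4 2 := by
  refine ⟨?_, by norm_num, ⟨4, by norm_num⟩⟩
  rintro ⟨r, hr⟩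
  have h1 : r < 2 := by nlinarith
  have h2 : -2 < r := by nlinarith
  interval_cases r <;> norm_num at hr

lemma exc_55 : Exceptional 5 5 := by
  refine ⟨?_, by norm_num, ⟨5, by norm_num⟩⟩
  rintro ⟨r, hr⟩
  have h1 : r < 3 := by nlinarith
  have h2 : -3 < r := by nlinarith
  interval_cases r <;> norm_num at hr

lemma tau_42 {D : ℤ} (h1 : D < 0) (h2 : D % 2 = 1) : τ 4 2 D = 1 ∧ τ' 4 2 D = 1 := by
  obtain ⟨k1, k2⟩ := Q44.BN.ex1 h2 h1
  unfold τ τ'
  rw [bad_42]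
  refine ⟨k1, ?_⟩
  have g1 : -2 * 4 * D = -2 * (4 * D) := by ring
  have g2 : (4 ^ 2 - 4 * 2) * D ^ 2 = (4 * D) ^ 2 - 4 * (2 * D ^ 2) := by ring
  rw [g1, g2]
  exact k2

lemma tau_55 {D : ℤ} (h1 : D < 0) (h2 : D % 4 = 2) : τ 5 5 D = 1 ∧ τ' 5 5 D = 1 := by
  obtain ⟨k1, k2⟩ := Q44.BN.ex2 h2 h1
  unfold τ τ'
  rw [bad_55]
  refine ⟨k1, ?_⟩
  have g1 : -2 * 5 * D = -2 * (5 * D) := by ring
  have g2 : (5 ^ 2 - 4 * 5) * D ^ 2 = (5 * D) ^ 2 - 4 * (5 * D ^ 2) := by ring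
  rw [g1, g2]
  exact k2

lemma examples : Examples :=
  ⟨⟨exc_42, fun _ h h1 h2 => bal exc_42 h (tau_42 h1 h2).1 (tau_42 h1 h2).2⟩,
    ⟨exc_55, fun _ h h1 h2 => bal exc_55 h (tau_55 h1 h2).1 (tau_55 h1 h2).2⟩⟩

/-- **The ranks of all the quadratic twists.** -/
theorem result : (∀ a b : ℤ, Exceptional a b →
    Bounds a b ∧ Tail a b ∧ Moments a b ∧ Averages a b ∧
      ∀ D₀ : ℤ, Squarefree D₀ → Mean a b D₀) ∧ Examples :=
  ⟨fun _ _ h => ⟨bounds h, tail h, moments h, averages h, fun _ hD => mean_lim h hD⟩, examples⟩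

end Pool.Agent.Results.MP_788af2_nt.AllTwistsBounded
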