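import Mathlib
import Pool.Agent.Q269.IsoFour.Four
import Pool.Agent.Q269.IsoFour.Fin

/-!
# The ranks of the elliptic curves with a rational cyclic subgroup of order 4

All elliptic curves over `ℚ` with a rational cyclic subgroup of order 4 (that is with a cyclic
isogeny of degree 4 defined over `ℚ`), ordered by height. The average of `4 ^ rank` is bounded, off
one set of density zero all the moments of `2 ^ rank` are bounded, the upper density of the curves
of rank at least `r` decays faster than any exponential `A ^ (-r)`, and a positive proportion of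
the curves has rank zero.
-/

namespace Pool.Agent.Results.MP_788af2_nt.CyclicFourIsogeny

open Filter Topology

/-- the curve `y² = x³ + A x + B` over the field `K` -/
def E (K : Type) [Field K] (A B : ℤ) : WeierstrassCurve K := ⟨0, 0, 0, (A : K), (B : K)⟩

/-- the Mordell-Weil rank of `y² = x³ + A x + B` over `ℚ` -/
noncomputable def rank (c : ℤ × ℤ) : ℕ := Module.finrank ℤ (E ℚ c.1 c.2).toAffine.Point

/-- There is a complex point `P` of order 4 with a rational abscissa on `y² = x³ + A x + B`. As the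
elements of order 4 of the group generated by `P` are `P` and `-P`, and these are the points of the
curve with the abscissa of `P`, this says that the cyclic group of order 4 generated by `P` is
stable under the Galois group, so that it is a rational cyclic subgroup of order 4 of the curve. -/
def HasCyclicFour (c : ℤ × ℤ) : Prop :=
  ∃ (x : ℚ) (y : ℂ) (h : (E ℂ c.1 c.2).toAffine.Nonsingular (x : ℂ) y),
    addOrderOf (WeierstrassCurve.Affine.Point.some (x : ℂ) y h) = 4

/-- The pairs `(A, B)` of integers such that `4 A³ + 27 B² ≠ 0`, there is no prime `p` with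
`p⁴ ∣ A` and `p⁶ ∣ B`, the curve `y² = x³ + A x + B` has a rational cyclic subgroup of order 4, and
the height `max (4 |A|³) (27 B²)` is at most `H`. Every elliptic curve over `ℚ` with a rational
cyclic subgroup of order 4 is isomorphic to `E ℚ A B` for exactly one pair with the first three
properties. -/
def Fam (H : ℕ) : Set (ℤ × ℤ) :=
  {c : ℤ × ℤ | 4 * c.1 ^ 3 + 27 * c.2 ^ 2 ≠ 0 ∧
    (∀ p : ℕ, p.Prime → ¬ ((p : ℤ) ^ 4 ∣ c.1 ∧ (p : ℤ) ^ 6 ∣ c.2)) ∧
    HasCyclicFour c ∧ 4 * |c.1| ^ 3 ≤ H ∧ 27 * c.2 ^ 2 ≤ H}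

/-- the proportion of the curves of `S` among the curves of height at most `H` -/
noncomputable def proportion (S : Set (ℤ × ℤ)) (H : ℕ) : ℝ :=
  ((Fam H ∩ S).ncard : ℝ) / (Fam H).ncard

/-- the upper density of a set of curves -/
noncomputable def upperDensity (S : Set (ℤ × ℤ)) : ℝ := limsup (proportion S) atTop

lemma Fam_eq (H : ℕ) : Fam H = (Pool.Agent.Q269.IsoFour.F4 H : Set (ℤ × ℤ)) := by
  ext c
  rw [Finset.mem_coe, Pool.Agent.Q269.IsoFour.mem_F4]
  constructor
  · rintro ⟨h1, h2, h3, h4, h5⟩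
    exact ⟨h1, ⟨h4, h5⟩, h2, (Pool.Agent.Q269.IsoFour.has4_iff h1).1 h3⟩
  · rintro ⟨h1, ⟨h4, h5⟩, h2, h3⟩
    exact ⟨h1, h2, (Pool.Agent.Q269.IsoFour.has4_iff h1).2 h3, h4, h5⟩

/-- **The ranks of the elliptic curves over `ℚ` with a rational cyclic subgroup of order 4.**
(1) The number of the curves of height at most `H` is finite, of the exact order `H ^ (1 / 3)`.
(2) The average of `4 ^ rank` over the curves of height at most `H` is bounded.
(3) There is one set `Z` of curves of density zero such that for every `k` the average of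
`(2 ^ k) ^ rank` over the curves outside `Z` is bounded.
(4) For every real `A` the upper density of the curves of rank at least `r` multiplied by `A ^ r`
tends to zero.
(5) A positive proportion of the curves has rank zero. -/
theorem result :
    ((∀ H : ℕ, (Fam H).Finite) ∧ ∃ c C : ℝ, 0 < c ∧ ∀ᶠ H : ℕ in atTop,
      c * (H : ℝ) ^ ((1 : ℝ) / 3) ≤ (Fam H).ncard ∧
      ((Fam H).ncard : ℝ) ≤ C * (H : ℝ) ^ ((1 : ℝ) / 3)) ∧
    (∃ C : ℝ, ∀ H : ℕ, ∑ᶠ c ∈ Fam H, (4 : ℝ) ^ rank c ≤ C * (Fam H).ncard) ∧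
    (∃ Z : Set (ℤ × ℤ), Tendsto (proportion Z) atTop (𝓝 0) ∧
      ∀ k : ℕ, ∃ C : ℝ, ∀ H : ℕ,
        ∑ᶠ c ∈ Fam H \ Z, ((2 : ℝ) ^ k) ^ rank c ≤ C * (Fam H).ncard) ∧
    (∀ A : ℝ, Tendsto (fun r : ℕ => A ^ r * upperDensity {c | r ≤ rank c}) atTop (𝓝 0)) ∧
    (∃ δ : ℝ, 0 < δ ∧ ∀ᶠ H : ℕ in atTop, δ ≤ proportion {c | rank c = 0} H) := by
  have hr : ∀ c, rank c = Pool.Agent.Q269.IsoFour.rk c := fun c => rfl
  unfold upperDensity proportion
  simp only [Fam_eq, Set.ncard_coe_finset, hr]
  refine ⟨⟨fun H => Finset.finite_toSet _, ?_⟩, ?_, ?_, ?_, ?_⟩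
  · obtain ⟨c, C, hc, -, h⟩ := Pool.Agent.Q269.IsoFour.count_F4
    exact ⟨c, C, hc, h⟩
  · obtain ⟨C, hC⟩ := Pool.Agent.Q269.IsoFour.average
    refine ⟨C, fun H => ?_⟩
    rw [finsum_mem_coe_finset]
    exact hC H
  · exact Pool.Agent.Q269.IsoFour.moments
  · exact Pool.Agent.Q269.IsoFour.tails
  · exact Pool.Agent.Q269.IsoFour.rank_zero

end Pool.Agent.Results.MP_788af2_nt.CyclicFourIsogeny
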